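import Mathlib

/-!
# Self-dual minor-closed classes containing all independence spaces

The independence spaces (finitary matroids) together with their duals form an admissible system
on every infinite set `S`. It contains all independence spaces, and it misses some B-matroid on `S`.
-/

set_option autoImplicit false

namespace Pool.Agent.Results.MP_cb2a9f_co.FinitaryOrCofinitary

open Set
open scoped Matroid

universe u

variable {α : Type u}

/-- `I` is a pre-independence space on `W`: a family of subsets of `W` that contains the empty set,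
is closed under subsets, and has the augmentation property for finite members. -/
def IsPreIndependenceSpace (W : Set α) (I : Set (Set α)) : Prop :=
  (∀ X ∈ I, X ⊆ W) ∧ ∅ ∈ I ∧ (∀ X ∈ I, ∀ Y, Y ⊆ X → Y ∈ I) ∧
    ∀ X ∈ I, ∀ Y ∈ I, X.Finite → Y.Finite → X.ncard < Y.ncard → ∃ e ∈ Y \ X, insert e X ∈ I

/-- `I` is an independence space on `W`: a pre-independence space on `W` in which a subset of `W`
is a member as soon as all its finite subsets are. -/
def IsIndependenceSpace (W : Set α) (I : Set (Set α)) : Prop :=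
  IsPreIndependenceSpace W I ∧ ∀ Y, Y ⊆ W → (∀ X, X ⊆ Y → X.Finite → X ∈ I) → Y ∈ I

/-- The members of `I` that are contained in `X` and are maximal with this property. -/
def maximalIn (I : Set (Set α)) (X : Set α) : Set (Set α) :=
  {B | Maximal (fun Y => Y ∈ I ∧ Y ⊆ X) B}

/-- `I` is (the family of independent sets of) a B-matroid on `W`. -/
def IsBMatroid (W : Set α) (I : Set (Set α)) : Prop :=
  (∀ X ∈ I, X ⊆ W) ∧ ∅ ∈ I ∧ (∀ X ∈ I, ∀ Y, Y ⊆ X → Y ∈ I) ∧
    ∀ X, X ⊆ W →
      (∀ T ∈ I, T ⊆ X → ∃ B ∈ maximalIn I X, T ⊆ B) ∧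
      (∀ B₁ ∈ maximalIn I X, ∀ B₂ ∈ maximalIn I X, ∀ x ∈ B₁ \ B₂,
        ∃ y ∈ B₂ \ B₁, insert y (B₁ \ {x}) ∈ maximalIn I X)

/-- `B` is a basis of `I`: a maximal member of `I`. -/
def IsBasis (I : Set (Set α)) (B : Set α) : Prop := Maximal (fun Y => Y ∈ I) B

/-- The restriction `I | Z`. -/
def restr (I : Set (Set α)) (Z : Set α) : Set (Set α) := {Y | Y ∈ I ∧ Y ⊆ Z}

/-- The contraction `I . Z`, computed with the basis `B` of the restriction of `I` to the
complement of `Z`. -/
def contr (I : Set (Set α)) (Z B : Set α) : Set (Set α) := {Y | Y ⊆ Z ∧ Y ∪ B ∈ I}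

/-- The dual `I*` on the ground set `W`: all `X ⊆ W` whose complement in `W` contains a basis. -/
def dual (W : Set α) (I : Set (Set α)) : Set (Set α) :=
  {X | X ⊆ W ∧ ∃ B, IsBasis I B ∧ B ⊆ W \ X}

/-- `D` (of which only the values `D W` with `W ⊆ S` matter) is an admissible system on `S`. -/
structure IsAdmissibleSystem (S : Set α) (D : Set α → Set (Set (Set α))) : Prop where
  /-- every member of `D W` is a pre-independence space on `W` -/
  pre : ∀ W, W ⊆ S → ∀ I ∈ D W, IsPreIndependenceSpace W I
  /-- closed under restriction -/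
  restr_mem : ∀ W, W ⊆ S → ∀ Z, Z ⊆ W → ∀ I ∈ D W, restr I Z ∈ D Z
  /-- the restriction to `W \ Z` has a basis -/
  contr_exists : ∀ W, W ⊆ S → ∀ Z, Z ⊆ W → ∀ I ∈ D W, ∃ B, IsBasis (restr I (W \ Z)) B
  /-- the contraction does not depend on the choice of the basis -/
  contr_unique : ∀ W, W ⊆ S → ∀ Z, Z ⊆ W → ∀ I ∈ D W, ∀ B B',
    IsBasis (restr I (W \ Z)) B → IsBasis (restr I (W \ Z)) B' → contr I Z B = contr I Z B'
  /-- closed under contraction -/
  contr_mem : ∀ W, W ⊆ S → ∀ Z, Z ⊆ W → ∀ I ∈ D W, ∀ B,
    IsBasis (restr I (W \ Z)) B → contr I Z B ∈ D Z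
  /-- closed under duality -/
  dual_mem : ∀ W, W ⊆ S → ∀ I ∈ D W, dual W I ∈ D W
  /-- the double dual is the original space -/
  dual_dual : ∀ W, W ⊆ S → ∀ I ∈ D W, dual W (dual W I) = I

/-! ### Translation to Mathlib matroids -/

/-- The family of independent sets of a matroid. -/
def ind (M : Matroid α) : Set (Set α) := {X | M.Indep X}

theorem mem_ind {M : Matroid α} {X : Set α} : X ∈ ind M ↔ M.Indep X := Iff.rfl

theorem isBasis_ind {M : Matroid α} {B : Set α} : IsBasis (ind M) B ↔ M.IsBase B := by
  rw [Matroid.isBase_iff_maximal_indep]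
  rfl

theorem restr_ind {M : Matroid α} {Z : Set α} : restr (ind M) Z = ind (M ↾ Z) := by
  ext X
  simp only [restr, mem_ofPred_eq, mem_ind, Matroid.restrict_indep_iff]

theorem dual_ind {M : Matroid α} : dual M.E (ind M) = ind M✶ := by
  ext X
  simp only [dual, mem_ofPred_eq, mem_ind, isBasis_ind, Matroid.dual_indep_iff_exists']
  refine and_congr_right fun hX => exists_congr fun B => and_congr_right fun hB => ?_
  rw [subset_sdiff, disjoint_comm]
  exact ⟨fun h => h.2, fun h => ⟨hB.subset_ground, h⟩⟩

theorem isBasis_restr_ind {M : Matroid α} {Z B : Set α} (_hZ : Z ⊆ M.E) :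
    IsBasis (restr (ind M) (M.E \ Z)) B ↔ M.IsBasis B (M.E \ Z) := by
  rw [restr_ind, isBasis_ind, Matroid.isBase_restrict_iff sdiff_subset]

theorem contr_ind {M : Matroid α} {Z B : Set α} (_hZ : Z ⊆ M.E)
    (hB : M.IsBasis B (M.E \ Z)) : contr (ind M) Z B = ind (M ／ (M.E \ Z)) := by
  ext X
  simp only [contr, mem_ofPred_eq, mem_ind, hB.contract_indep_iff]
  constructor
  · rintro ⟨h1, h2⟩
    exact ⟨h2, disjoint_sdiff_left.mono_right h1⟩
  · rintro ⟨h1, h2⟩
    refine ⟨?_, h1⟩
    intro x hx
    by_contra hxZ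
    exact h2.notMem_of_mem_right hx ⟨h1.subset_ground (Or.inl hx), hxZ⟩

theorem isPre_ind (M : Matroid α) : IsPreIndependenceSpace M.E (ind M) := by
  refine ⟨fun X hX => hX.subset_ground, M.empty_indep, fun X hX Y hY => hX.subset hY, ?_⟩
  intro X hX Y hY hXf hYf hlt
  have hlt' : X.encard < Y.encard := by
    rw [← hXf.cast_ncard_eq, ← hYf.cast_ncard_eq]
    exact_mod_cast hlt
  exact Matroid.Indep.augment hX hY hlt'

theorem isIndep_ind (M : Matroid α) [M.Finitary] : IsIndependenceSpace M.E (ind M) :=
  ⟨isPre_ind M, fun Y _ h => M.indep_of_forall_finite_subset_indep Y fun X hX hf => h X hX hf⟩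

/-- Every independence space is the family of independent sets of a finitary matroid. -/
theorem exists_matroid {W : Set α} {I : Set (Set α)} (h : IsIndependenceSpace W I) :
    ∃ M : Matroid α, M.E = W ∧ M.Finitary ∧ ind M = I := by
  refine ⟨(IndepMatroid.ofFinitaryCardAugment W (fun X => X ∈ I) h.1.2.1
    (fun X Y hY hXY => h.1.2.2.1 Y hY X hXY) ?_ ?_ h.1.1).matroid, rfl, ?_, ?_⟩
  · intro X Y hX hXf hY hYf hlt
    obtain ⟨e, he, h'⟩ := h.1.2.2.2 X hX Y hY hXf hYf hlt
    exact ⟨e, he.1, he.2, h'⟩
  · intro Y hY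
    refine h.2 Y ?_ hY
    intro y hy
    exact h.1.1 {y} (hY {y} (singleton_subset_iff.2 hy) (finite_singleton y)) rfl
  · infer_instance
  · ext X
    rfl

/-- The system: all independence spaces and their duals. -/
def sys (W : Set α) : Set (Set (Set α)) :=
  {I | ∃ M : Matroid α, M.E = W ∧ (M.Finitary ∨ M✶.Finitary) ∧ ind M = I}

theorem sys_admissible (S : Set α) : IsAdmissibleSystem S (sys (α := α)) where
  pre := by
    rintro W - I ⟨M, rfl, -, rfl⟩
    exact isPre_ind M
  restr_mem := by
    rintro W - Z hZ I ⟨M, rfl, hM, rfl⟩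
    refine ⟨M ↾ Z, rfl, ?_, restr_ind.symm⟩
    rcases hM with hM | hM
    · exact Or.inl inferInstance
    · right
      rw [show M ↾ Z = M ＼ (M.E \ Z) by
        rw [Matroid.delete_eq_restrict, sdiff_sdiff_cancel_left hZ], Matroid.dual_delete]
      infer_instance
  contr_exists := by
    rintro W - Z hZ I ⟨M, rfl, hM, rfl⟩
    obtain ⟨B, hB⟩ := M.exists_isBasis (M.E \ Z)
    exact ⟨B, (isBasis_restr_ind hZ).2 hB⟩
  contr_unique := by
    rintro W - Z hZ I ⟨M, rfl, hM, rfl⟩ B B' hB hB'
    rw [contr_ind hZ ((isBasis_restr_ind hZ).1 hB), contr_ind hZ ((isBasis_restr_ind hZ).1 hB')]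
  contr_mem := by
    rintro W - Z hZ I ⟨M, rfl, hM, rfl⟩ B hB
    rw [contr_ind hZ ((isBasis_restr_ind hZ).1 hB)]
    refine ⟨M ／ (M.E \ Z), ?_, ?_, rfl⟩
    · rw [Matroid.contract_ground, sdiff_sdiff_cancel_left hZ]
    · rcases hM with hM | hM
      · exact Or.inl inferInstance
      · right
        rw [Matroid.dual_contract]
        infer_instance
  dual_mem := by
    rintro W - I ⟨M, rfl, hM, rfl⟩
    refine ⟨M✶, rfl, ?_, dual_ind.symm⟩
    rw [Matroid.dual_dual]
    exact hM.symm
  dual_dual := by
    rintro W - I ⟨M, rfl, hM, rfl⟩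
    rw [dual_ind]
    have := dual_ind (M := M✶)
    rw [Matroid.dual_dual, Matroid.dual_ground] at this
    exact this

theorem isBMatroid_ind (M : Matroid α) : IsBMatroid M.E (ind M) := by
  refine ⟨fun X hX => hX.subset_ground, M.empty_indep, fun X hX Y hY => hX.subset hY, ?_⟩
  intro X hX
  have key : ∀ B, B ∈ maximalIn (ind M) X ↔ M.IsBasis B X := by
    intro B
    rw [Matroid.isBasis_iff_maximal]
    rfl
  refine ⟨?_, ?_⟩
  · intro T hT hTX
    obtain ⟨B, hB, hTB⟩ := Matroid.Indep.subset_isBasis_of_subset hT hTX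
    exact ⟨B, (key B).2 hB, hTB⟩
  · intro B₁ h₁ B₂ h₂ x hx
    rw [key] at h₁ h₂
    rw [← Matroid.isBase_restrict_iff hX] at h₁ h₂
    obtain ⟨y, hy, h⟩ := h₁.exchange h₂ hx
    refine ⟨y, hy, (key _).2 ?_⟩
    rwa [← Matroid.isBase_restrict_iff hX]

/-! ### The B-matroid that is missed -/

/-- The rank one matroid on `A` without loops (for nonempty `A`). -/
def rankOne (A : Set α) : Matroid α :=
  (IndepMatroid.ofFinitaryCardAugment A (fun X => X ⊆ A ∧ X.Subsingleton)
    ⟨empty_subset _, subsingleton_empty⟩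
    (fun X Y hY hXY => ⟨hXY.trans hY.1, hY.2.anti hXY⟩)
    (by
      intro X Y hX hXf hY hYf hlt
      have h1 : Y.ncard ≤ 1 := by
        have := hY.2
        rcases this.eq_empty_or_singleton with h | ⟨y, h⟩
        · simp [h]
        · simp [h]
      have h0 : X = ∅ := by
        have : X.ncard = 0 := by omega
        exact (ncard_eq_zero hXf).1 this
      have hne : Y.Nonempty := by
        rw [nonempty_iff_ne_empty]
        rintro rfl
        simp at hlt
      obtain ⟨e, he⟩ := hne
      refine ⟨e, he, by simp [h0], ?_, ?_⟩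
      · rw [h0]
        intro z hz
        rcases hz with rfl | hz
        · exact hY.1 he
        · exact absurd hz (notMem_empty z)
      · rw [h0]
        simp)
    (by
      intro Y hY
      refine ⟨fun y hy => (hY {y} (singleton_subset_iff.2 hy) (finite_singleton y)).1 rfl, ?_⟩
      intro a ha b hb
      exact (hY {a, b} (pair_subset ha hb) (toFinite _)).2 (Or.inl rfl) (Or.inr rfl))
    (fun X hX => hX.1)).matroid

theorem rankOne_indep {A X : Set α} : (rankOne A).Indep X ↔ X ⊆ A ∧ X.Subsingleton := Iff.rfl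

theorem rankOne_ground {A : Set α} : (rankOne A).E = A := rfl

theorem rankOne_isBase {A : Set α} {a : α} (ha : a ∈ A) : (rankOne A).IsBase {a} := by
  rw [Matroid.isBase_iff_maximal_indep]
  refine ⟨⟨singleton_subset_iff.2 ha, subsingleton_singleton⟩, ?_⟩
  rintro X ⟨-, hX⟩ haX
  intro x hx
  exact hX hx (haX rfl)

theorem rankOne_dual_indep_of_finite {A X : Set α} (hA : A.Infinite) (hX : X ⊆ A)
    (hf : X.Finite) : (rankOne A)✶.Indep X := by
  rw [Matroid.dual_indep_iff_exists']
  obtain ⟨a, haA, haX⟩ := (hA.sdiff hf).nonempty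
  exact ⟨hX, {a}, rankOne_isBase haA, disjoint_singleton_right.2 haX⟩

theorem rankOne_dual_not_indep {A : Set α} (hA : A.Infinite) : ¬ (rankOne A)✶.Indep A := by
  rw [Matroid.dual_indep_iff_exists']
  rintro ⟨-, B, hB, hdisj⟩
  obtain ⟨a, ha⟩ := hA.nonempty
  have hBA : B ⊆ A := hB.subset_ground
  have hBe : B = ∅ := by
    rw [eq_empty_iff_forall_notMem]
    intro b hb
    exact hdisj.notMem_of_mem_right hb (hBA hb)
  have h := (Matroid.isBase_iff_maximal_indep.1 hB).2 (rankOne_isBase ha).indep (by
    rw [hBe]; exact empty_subset _)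
  have : a ∈ B := h rfl
  rw [hBe] at this
  exact this

/-- If a matroid restricted to a subset of its ground set is the infinite circuit, it is not
finitary. -/
theorem not_finitary {M : Matroid α} {A : Set α} (h1 : ∀ X, X ⊆ A → X.Finite → M.Indep X)
    (h2 : ¬ M.Indep A) : ¬ M.Finitary := fun _ =>
  h2 (M.indep_of_forall_finite_subset_indep A h1)

/-- **Negative answer to Q1, for every infinite set `S`.** There is an admissible system on `S`
that contains all independence spaces, but does not contain all B-matroids on `S`. -/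
theorem result (S : Set α) (hS : S.Infinite) :
    ∃ D : Set α → Set (Set (Set α)), IsAdmissibleSystem S D ∧
      (∀ W, W ⊆ S → ∀ I, IsIndependenceSpace W I → I ∈ D W) ∧
      ∃ I, IsBMatroid S I ∧ I ∉ D S := by
  refine ⟨sys, sys_admissible S, ?_, ?_⟩
  · intro W _ I hI
    obtain ⟨M, h1, h2, h3⟩ := exists_matroid hI
    exact ⟨M, h1, Or.inl h2, h3⟩
  · obtain ⟨A, B, hAB, hdisj, hA, hB⟩ : ∃ A B : Set α, A ∪ B = S ∧ Disjoint A B ∧
        A.Infinite ∧ B.Infinite := by
      obtain ⟨A, B, h1, h2, h3⟩ := hS.exists_union_disjoint_cardinal_eq_of_infinite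
      have h4 : A.Infinite ↔ B.Infinite := by
        rw [← Set.infinite_coe_iff, ← Set.infinite_coe_iff, Cardinal.infinite_iff,
          Cardinal.infinite_iff, h3]
      have h5 : A.Infinite ∨ B.Infinite := by
        rw [← Set.infinite_union, h1]
        exact hS
      rcases h5 with h5 | h5
      · exact ⟨A, B, h1, h2, h5, h4.1 h5⟩
      · exact ⟨A, B, h1, h2, h4.2 h5, h5⟩
    have hE : Disjoint ((rankOne A)✶).E (rankOne B).E := hdisj
    set M := ((rankOne A)✶).disjointSum (rankOne B) hE with hM
    have hME : M.E = S := by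
      rw [hM, Matroid.disjointSum_ground_eq]
      exact hAB
    refine ⟨ind M, ?_, ?_⟩
    · rw [← hME]
      exact isBMatroid_ind M
    · rintro ⟨N, hNE, hN, hNM⟩
      have hNM' : N = M := by
        refine Matroid.ext_indep (hNE.trans hME.symm) fun X _ => ?_
        rw [← mem_ind, ← mem_ind, hNM]
      subst hNM'
      rcases hN with hN | hN
      · refine not_finitary (A := A) ?_ ?_ hN
        · intro X hX hf
          rw [hM, Matroid.disjointSum_indep_iff]
          refine ⟨?_, ?_, hX.trans subset_union_left⟩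
          · exact rankOne_dual_indep_of_finite hA (inter_subset_left.trans hX)
              (hf.subset inter_subset_left)
          · rw [rankOne_ground, (hdisj.mono_left hX).inter_eq]
            exact Matroid.empty_indep _
        · rw [hM, Matroid.disjointSum_indep_iff]
          rintro ⟨h, -, -⟩
          rw [Matroid.dual_ground, rankOne_ground, inter_self] at h
          exact rankOne_dual_not_indep hA h
      · refine not_finitary (A := B) ?_ ?_ hN
        · intro X hX hf
          obtain ⟨b, hbB, hbX⟩ := (hB.sdiff hf).nonempty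
          obtain ⟨C, hC⟩ := ((rankOne A)✶).exists_isBase
          have hCA : C ⊆ A := hC.subset_ground
          rw [Matroid.dual_indep_iff_exists']
          refine ⟨?_, insert b C, ?_, ?_⟩
          · rw [hME, ← hAB]
            exact hX.trans subset_union_right
          · rw [hM, Matroid.disjointSum_isBase_iff]
            refine ⟨?_, ?_, ?_⟩
            · rw [Matroid.dual_ground, rankOne_ground,
                insert_inter_of_notMem (fun h => hdisj.notMem_of_mem_left h hbB),
                inter_eq_self_of_subset_left hCA]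
              exact hC
            · rw [rankOne_ground, insert_inter_of_mem hbB, (hdisj.mono_left hCA).inter_eq,
                insert_empty_eq]
              exact rankOne_isBase hbB
            · exact insert_subset (Or.inr hbB) (hCA.trans subset_union_left)
          · rw [disjoint_insert_right]
            exact ⟨hbX, (hdisj.symm.mono_left hX).mono_right hCA⟩
        · rw [Matroid.dual_indep_iff_exists']
          rintro ⟨-, C, hC, hdC⟩
          rw [hM, Matroid.disjointSum_isBase_iff] at hC
          obtain ⟨-, hC, -⟩ := hC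
          rw [rankOne_ground, inter_comm, hdC.inter_eq] at hC
          obtain ⟨b, hb⟩ := hB.nonempty
          have := hC.eq_of_subset_isBase (rankOne_isBase hb) (empty_subset _)
          exact (singleton_ne_empty b) this.symm

end Pool.Agent.Results.MP_cb2a9f_co.FinitaryOrCofinitary
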